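import Mathlib
import Pool.Agent.Lib.RGM.Main

/-!
# MP_dbd2c3_nt: mild sets of prime numbers with generic cup rank, in terms of linking numbers

The definitions used in the statement:

* `Pool.Agent.RG.link` (linking numbers) in `Pool/Agent/Lib/RG/GX3.lean`;
* `Pool.Agent.RG.Q.cup` (the cup product in coordinates) in `Pool/Agent/Lib/RG/QCrit.lean`;
* `Pool.Agent.RGM.GenC`, `Pool.Agent.RGM.MildC`, `Pool.Agent.RGM.UVC` (the conditions on the cup product),
  `Pool.Agent.RGM.Mild`, `Pool.Agent.RGM.hd`, `Pool.Agent.RGM.I`, `Pool.Agent.RGM.quad`,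
  `Pool.Agent.RGM.len` (the quadratic algebra and its Hilbert series) in `Pool/Agent/Lib/RGM/Defs.lean`;
  `Pool.Agent.RG.Q.FA`, `Pool.Agent.RG.Q.wd`, `Pool.Agent.RG.Q.X` (the free algebra, its words and
  letters) in `Pool/Agent/Lib/RG/QDefs.lean`;
* `Pool.Agent.RG.Above`, `Pool.Agent.RG.IsDec`, `Pool.Agent.RG.IsInert`,
  `Pool.Agent.RG.UnrOutside` (`w` lies above `q`; the decomposition and inertia groups of `w`;
  unramified outside `S`) in `Pool/Agent/Lib/RG/Defs.lean`;
* `Pool.Agent.RG.Lies` (`w` lies above `v`) in `Pool/Agent/Lib/RG/G01.lean`;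
* `Pool.Agent.RG.UnrP`, `Pool.Agent.RG.InCP`, `Pool.Agent.RG.maxExtP`, `Pool.Agent.RG.GP` (the
  maximal `p`-extension of `K` unramified outside `S` and its Galois group, with the Krull topology)
  in `Pool/Agent/Lib/RG/RDefs.lean`;
* `Pool.Agent.RG.NotSplit` (`q` does not split completely in the maximal `p`-extension of `ℚ`
  unramified outside `S₁`) in `Pool/Agent/Lib/RG/M4.lean`;
* `Pool.Agent.RG.Ram` (`q` ramifies) in `Pool/Agent/Lib/RG/R4.lean`;
* `Pool.Agent.RG.GenBy` (topological generation) in `Pool/Agent/Lib/RG/PMain0.lean`;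
* `Pool.Agent.RG.rankGradient` in `Pool/Agent/Lib/RG/G14.lean`.
-/

set_option autoImplicit false

namespace Pool.Agent.Results.MP_dbd2c3_nt.MildLinking

open NumberField IsDedekindDomain Pool.Agent.RG Pool.Agent.RGM

/-- Let `p` be an odd prime and `S₁` a finite set of primes congruent to `1` modulo `p`, with linking
matrix `ℓ = link lam`, and cup product `F_p^{S₁} × F_p^{S₁} → F_p^{S₁}` given by
`(f ∪ g)_q = f_q (ℓ g)_q - g_q (ℓ f)_q`. Assume

* (generic cup rank) `S₁` is not empty and over some extension field there is an `f` such that the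
  elements `f ∪ g` span a space of dimension at least `|S₁| - 1`; this holds if for some `r ∈ S₁` no
  other element of `S₁` is a `p`-th power modulo `r`;
* the quadratic algebra given by the cup product has Hilbert series `1 / (1 - d t + d t²)`, `d = |S₁|` (the
  group `G_{ℚ,p,S₁}` is mild), or `F_p^{S₁} = U ⊕ V` where the cup product is zero on `V` and `U ∪ V` spans.

Let `M` be a finite Galois extension of `ℚ` of `p`-power degree in which `p` is unramified, `K` a number
field which embeds into `M` (for instance `K = ℚ`), and `S` a finite set of primes of `K` of norm congruent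
to `1` modulo `p` which contains the primes above `S₁`, such that no prime number `q ∉ S₁` which lies below
`S` or ramifies in `M` splits completely in the maximal `p`-extension of `ℚ` unramified outside `S₁`. Then
the group `G_{K,p,S}` is infinite and has rank gradient zero. -/
theorem result (p : ℕ) [Fact p.Prime] (hp : p ≠ 2) (S₁ : Finset ℕ)
    (hS₁ : ∀ q ∈ S₁, q.Prime ∧ q % p = 1)
    (lam : ∀ r : S₁, (ZMod (r : ℕ))ˣ →* Multiplicative (ZMod p))
    (hlam : ∀ r, Function.Surjective (lam r))
    (hg : (∃ r : S₁, ∀ q : S₁, q ≠ r → link lam q r ≠ 0) ∨ GenC (Q.cup (link lam)))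
    (hm : MildC (Q.cup (link lam)) ∨ UVC (Q.cup (link lam)))
    (K M : Type) [Field K] [NumberField K] [Field M] [NumberField M] [IsGalois ℚ M]
    (hd : ∃ k, Module.finrank ℚ M = p ^ k) (ht : ¬ Ram p M) (j : K →+* M)
    (S : Set (HeightOneSpectrum (𝓞 K))) (hfin : S.Finite)
    (hN : ∀ v ∈ S, Ideal.absNorm v.asIdeal % p = 1)
    (hcont : ∀ v : HeightOneSpectrum (𝓞 K), ∀ q ∈ S₁, Above v q → v ∈ S)
    (hns : ∀ q : ℕ, q.Prime → q ∉ S₁ → ((∃ v ∈ S, Above v q) ∨ Ram q M) → NotSplit p S₁ q) :
    Infinite (GP p S) ∧ rankGradient (GP p S) = 0 :=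
  final_Q' rgrpT p hp S₁ hS₁ lam hlam hg hm K M hd ht j S hfin hN hcont hns

end Pool.Agent.Results.MP_dbd2c3_nt.MildLinking
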