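import Mathlib
import Pool.Agent.Lib.RGM.Main
import Pool.Agent.Lib.RGM.SDefs

/-!
# MP_dbd2c3_nt: mild sets of primes of a number field with generic cup rank have rank gradient zero

The definitions used in the statement:

* `Pool.Agent.RGM.GenMild` (the two conditions below) in `Pool/Agent/Lib/RGM/SDefs.lean`;
* `Pool.Agent.RGM.GenC`, `Pool.Agent.RGM.MildC`, `Pool.Agent.RGM.UVC` (the conditions on the cup product),
  `Pool.Agent.RGM.Mild`, `Pool.Agent.RGM.hd`, `Pool.Agent.RGM.I`, `Pool.Agent.RGM.quad`,
  `Pool.Agent.RGM.len` (the quadratic algebra and its Hilbert series) in `Pool/Agent/Lib/RGM/Defs.lean`;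
  `Pool.Agent.RG.Q.FA`, `Pool.Agent.RG.Q.wd`, `Pool.Agent.RG.Q.X` (the free algebra, its words and
  letters) in `Pool/Agent/Lib/RG/QDefs.lean`;
* `Pool.Agent.RGM.cupXY`, `Pool.Agent.RGM.VTriv` in `Pool/Agent/Lib/RGM/KDefs.lean`;
  `Pool.Agent.RGK.H1` (continuous homomorphisms to `ZMod p`) in `Pool/Agent/Lib/RGK/QKDefs.lean`;
* `Pool.Agent.RGJ.Persistent`, `Pool.Agent.RGJ.NSplit`, `Pool.Agent.RGJ.RamAt` (persistent sets; a prime
  does not split completely in the maximal `p`-extension unramified outside `T`; it is ramified in `M / K`)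
  in `Pool/Agent/Lib/RGJ/Defs.lean`;
* `Pool.Agent.RGK.InFrK` (inertia generator and Frobenius element), `Pool.Agent.RGK.nm` (norm),
  `Pool.Agent.RG.H.below` (the prime below) in `Pool/Agent/Lib/RGK/G03.lean`,
  `Pool/Agent/Lib/RGK/CDefs.lean`, `Pool/Agent/Lib/RG/HDefs.lean`;
* `Pool.Agent.RG.Above`, `Pool.Agent.RG.IsDec`, `Pool.Agent.RG.IsInert`, `Pool.Agent.RG.IsFrob`,
  `Pool.Agent.RG.Lies` (`w` lies above the prime number `q`; the decomposition and inertia groups and the
  Frobenius elements of `w`; `w` lies above `v`) in `Pool/Agent/Lib/RG/Defs.lean` and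
  `Pool/Agent/Lib/RG/G01.lean`;
* `Pool.Agent.RG.UnrP`, `Pool.Agent.RG.InCP`, `Pool.Agent.RG.maxExtP`, `Pool.Agent.RG.GP` (the maximal
  `p`-extension of `K` unramified outside `S` and its Galois group, with the Krull topology) in
  `Pool/Agent/Lib/RG/RDefs.lean`;
* `Pool.Agent.RG.GenBy` (topological generation) in `Pool/Agent/Lib/RG/PMain0.lean`;
* `Pool.Agent.RG.rankGradient` in `Pool/Agent/Lib/RG/G14.lean`.
-/

set_option autoImplicit false

namespace Pool.Agent.Results.MP_dbd2c3_nt.MildSets

open NumberField IsDedekindDomain Pool.Agent.RG Pool.Agent.RGK Pool.Agent.RGJ Pool.Agent.RGM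

/-- Let `p` be an odd prime, `K` a number field and `T` a finite set of primes of `K` whose norms are
prime numbers congruent to `1` modulo `p`, such that `V_T = K^{×p}` (`VTriv`). Put `R = T`, or, if `K`
contains the `p`-th roots of unity, `R = T` or `R = T` without one prime. For `t ∈ R` let `x t` be a
generator of the inertia group and `y t` a Frobenius element in `G = G_{K,p,T}` (of one prime above `t`),
and consider the cup product `H¹ × H¹ → F_p^R`, `H¹ = H¹(G, F_p)`, at these pairs (`cupXY`). Assume
(`GenMild`)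

* (generic cup rank) `H¹ ≠ 0` and over some extension field there is an `f` in `H¹` such that the elements
  `f ∪ g` span a space of dimension at least `dim H¹ - 1`, and
* (mild) the quadratic algebra with generators `X_a` and relations `∑ (f_a ∪ f_b)_t X_a X_b = 0` (`t ∈ R`,
  `f_a` a basis of `H¹`) has Hilbert series `1 / (1 - dim H¹ z + |R| z²)`; or `H¹ = U ⊕ V` where the cup
  product is zero on `V` and `U ∪ V` spans `F_p^R`.

Then `T` is persistent: for all number fields `K ⊆ L ⊆ M` with `M / K` finite Galois of `p`-power degree,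
unramified above `p`, and all finite sets `S` of primes of `L` of norm congruent to `1` modulo `p` which
contain the primes above `T`, if no prime of `K` outside `T` which lies below `S` or ramifies in `M`
splits completely in the maximal `p`-extension of `K` unramified outside `T`, then the group `G_{L,p,S}` is
infinite and has rank gradient zero. In particular (`L = M = K`, `S = T`) this holds for `G_{K,p,T}`. -/
theorem result (p : ℕ) [Fact p.Prime] (hp : p ≠ 2) (K : Type) [Field K] [NumberField K]
    (T R : Finset (HeightOneSpectrum (𝓞 K)))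
    (hT : ∀ t ∈ T, (Ideal.absNorm t.asIdeal).Prime ∧ Ideal.absNorm t.asIdeal % p = 1)
    (hV : VTriv p (T : Set (HeightOneSpectrum (𝓞 K))))
    (hR : R = T ∨ (∃ ζ : K, IsPrimitiveRoot ζ p) ∧ ∃ o ∈ T, ∀ t, t ∈ R ↔ t ∈ T ∧ t ≠ o)
    (x y : R → GP p (T : Set (HeightOneSpectrum (𝓞 K))))
    (hxy : ∀ t : R, InFrK (t : HeightOneSpectrum (𝓞 K)) (x t) (y t))
    (h : GenMild p x y) :
    Persistent p (T : Set (HeightOneSpectrum (𝓞 K))) :=
  final_K' rgrpT p hp K T R hT hV hR x y hxy h.1 h.2

end Pool.Agent.Results.MP_dbd2c3_nt.MildSets
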