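import Mathlib
import Pool.Agent.Lib.RGJ.J11

/-!
# MP_dbd2c3_nt: almost all tame sets of primes of a number field contain a persistent set

The definitions used in the statement:

* `Pool.Agent.RGJ.NSplit`, `Pool.Agent.RGJ.RamAt`, `Pool.Agent.RGJ.Persistent` (a prime does not split
  completely in the maximal `p`-extension unramified outside `T`; it is ramified in `M / K`; persistent
  sets) in `Pool/Agent/Lib/RGJ/Defs.lean`;
* `Pool.Agent.RG.Above`, `Pool.Agent.RG.IsDec`, `Pool.Agent.RG.IsInert`, `Pool.Agent.RG.Lies` (`w` lies
  above the prime number `q`; the decomposition and inertia groups of `w`; `w` lies above `v`) in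
  `Pool/Agent/Lib/RG/Defs.lean` and `Pool/Agent/Lib/RG/G01.lean`;
* `Pool.Agent.RG.UnrP`, `Pool.Agent.RG.InCP`, `Pool.Agent.RG.maxExtP`, `Pool.Agent.RG.GP` (the maximal
  `p`-extension of `K` unramified outside `S` and its Galois group, with the Krull topology) in
  `Pool/Agent/Lib/RG/RDefs.lean`;
* `Pool.Agent.RGK.nm` (norm) in `Pool/Agent/Lib/RGK/CDefs.lean`; `Pool.Agent.RGK.P1K`,
  `Pool.Agent.RGK.pmeanK`, `Pool.Agent.RGK.iterProbK` (primes chosen at random one after another) in
  `Pool/Agent/Lib/RGK/NKDefs.lean`;
* `Pool.Agent.RG.GenBy` (topological generation) in `Pool/Agent/Lib/RG/PMain0.lean`;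
* `Pool.Agent.RG.rankGradient` in `Pool/Agent/Lib/RG/G14.lean`.
-/

set_option autoImplicit false

namespace Pool.Agent.Results.MP_dbd2c3_nt.PersistentSets

open NumberField IsDedekindDomain Pool.Agent.RG Pool.Agent.RGK Pool.Agent.RGJ

/-- Let `p` be an odd prime, `K` a number field, and `S₀`, `R` finite sets of primes of `K` with norms
congruent to `1` modulo `p`. If the primes `v₁, .., v_k` of `K` with norms congruent to `1` modulo `p`
are chosen at random one after another (lower Dirichlet density) and `S = S₀ ∪ {v₁, .., v_k}`, then the
probability that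

* the group `G_{K,p,S}` is infinite and has rank gradient zero, and
* `S` contains a persistent set `T` such that no element of `S ∪ R` outside `T` splits completely in
  the maximal `p`-extension of `K` unramified outside `T`

tends to `1` as `k` tends to infinity. The set `T` is persistent if for all fields `K ⊆ L ⊆ M` with
`M / K` finite Galois of `p`-power degree, unramified above `p`, and every finite set `S'` of primes of
`L` with norms congruent to `1` modulo `p` which contains the primes above `T`, such that no prime of
`K` outside `T` which lies below `S'` or ramifies in `M` splits completely in the maximal `p`-extension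
of `K` unramified outside `T`, the group `G_{L,p,S'}` is infinite and has rank gradient zero. (With the
set `R` of the primes which ramify in `M`, this applies to all finite tame `S'` whose primes lie above
`S` and which contain the primes above `T`.) -/
theorem result (p : ℕ) [Fact p.Prime] (hp : p ≠ 2) (K : Type) [Field K] [NumberField K]
    (S₀ R : Finset (HeightOneSpectrum (𝓞 K)))
    (hS₀ : ∀ v ∈ S₀, Ideal.absNorm v.asIdeal % p = 1)
    (hR : ∀ v ∈ R, Ideal.absNorm v.asIdeal % p = 1) :
    Filter.Tendsto (fun k => iterProbK p
      (fun S => (Infinite (GP p (S : Set (HeightOneSpectrum (𝓞 K)))) ∧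
          rankGradient (GP p (S : Set (HeightOneSpectrum (𝓞 K)))) = 0) ∧
        ∃ T ⊆ S, Persistent p (T : Set (HeightOneSpectrum (𝓞 K))) ∧
          ∀ v : HeightOneSpectrum (𝓞 K), (v ∈ S ∨ v ∈ R) → v ∉ T →
            NSplit p (T : Set (HeightOneSpectrum (𝓞 K))) v) k S₀)
      Filter.atTop (nhds 1) :=
  persistent_main hp R hR S₀ hS₀

end Pool.Agent.Results.MP_dbd2c3_nt.PersistentSets
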